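import Mathlib

/-!
# MP_1efffb_co: deleting four rows of a Hadamard matrix can destroy diametric maximality

Switch a Sylvester matrix so that the first column is alone in its sign pattern on the first four
rows; then that column with one entry flipped can be added.
-/

namespace Pool.Agent.Results.MP_1efffb_co.FourRows

open Finset Matrix

def IsSign {ι : Type} (x : ι → ℤ) : Prop := ∀ i, x i = 1 ∨ x i = -1

/-- A normalized Hadamard matrix of order `n`. -/
def NormHadamard {n : ℕ} (H : Matrix (Fin n) (Fin n) ℤ) : Prop :=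
  (∀ i, IsSign (H i)) ∧ H * Hᵀ = (n : ℤ) • 1 ∧ Hᵀ * H = (n : ℤ) • 1 ∧
    ∀ i j, i.val = 0 ∨ j.val = 0 → H i j = 1

def diam {m : ℕ} (A : Finset (Fin m → ℤ)) : ℕ := A.sup fun x => A.sup fun y => hammingDist x y

/-- `A` is diametrically maximal in the sign cube `Q_m`. -/
def DiamMaximal {m : ℕ} (A : Finset (Fin m → ℤ)) : Prop :=
  ∀ x, IsSign x → x ∉ A → diam A < diam (insert x A)

/-- The set of columns of `H` after deleting its first `r` rows. -/
def cols (r : ℕ) {m : ℕ} (H : Matrix (Fin (r + m)) (Fin (r + m)) ℤ) : Finset (Fin m → ℤ) :=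
  univ.image fun j i => H (Fin.natAdd r i) j

theorem dist_eq {m : ℕ} (u v : Fin m → ℤ) (hu : IsSign u) (hv : IsSign v) :
    2 * (hammingDist u v : ℤ) = m - ∑ i, u i * v i := by
  rw [hammingDist, card_filter, Nat.cast_sum, mul_sum, eq_sub_iff_add_eq, ← sum_add_distrib,
    sum_congr rfl (g := fun _ => 1) fun i _ => by
      rcases hu i with h | h <;> rcases hv i with h' | h' <;> simp [h, h']]
  simp

theorem core {m : ℕ} (hm : 8 ≤ m) (H : Matrix (Fin (4 + m)) (Fin (4 + m)) ℤ) (h : NormHadamard H)
    (j0 j1 j2 : Fin (4 + m)) (h12 : j1 ≠ j2)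
    (hT : ∀ j, j0 ≠ j → ∑ a : Fin 4, H (Fin.castAdd m a) j0 * H (Fin.castAdd m a) j ≤ 2)
    (hE : ∑ a : Fin 4, H (Fin.castAdd m a) j1 * H (Fin.castAdd m a) j2 = 4) :
    ¬ DiamMaximal (cols 4 H) := by
  let c : Fin (4 + m) → Fin m → ℤ := fun j i => H (Fin.natAdd 4 i) j
  have hs : ∀ j, IsSign (c j) := fun j i => h.1 _ _
  have hd : ∀ j k, j ≠ k → 2 * (hammingDist (c j) (c k) : ℤ) =
      m + ∑ a : Fin 4, H (Fin.castAdd m a) j * H (Fin.castAdd m a) k := by
    intro j k hjk
    have := congrFun (congrFun h.2.2.1 j) k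
    rw [mul_apply, Fin.sum_univ_add, Matrix.smul_apply, one_apply_ne hjk, smul_zero] at this
    simp only [transpose_apply] at this
    rw [dist_eq _ _ (hs j) (hs k)]
    simp only [c]
    linarith
  have hlow : ∀ j k, -4 ≤ ∑ a : Fin 4, H (Fin.castAdd m a) j * H (Fin.castAdd m a) k := by
    intro j k
    refine le_trans (by simp) (sum_le_sum (f := fun _ => -1) fun a _ => ?_)
    rcases h.1 (Fin.castAdd m a) j with e | e <;> rcases h.1 (Fin.castAdd m a) k with e' | e' <;>
      simp [e, e']
  let p : Fin m := ⟨0, by omega⟩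
  let x := Function.update (c j0) p (-c j0 p)
  have hx : hammingDist x (c j0) = 1 := by
    rw [hammingDist, card_eq_one]
    refine ⟨p, eq_singleton_iff_unique_mem.2 ⟨?_, fun i hi => ?_⟩⟩
    · rcases hs j0 p with e | e <;> simp [x, e]
    · by_contra hne
      simp [x, Function.update_of_ne hne] at hi
  have hD : hammingDist (c j1) (c j2) ≤ diam (cols 4 H) :=
    le_sup_of_le (mem_image_of_mem _ (mem_univ j1)) (le_sup_of_le (mem_image_of_mem _ (mem_univ j2))
      le_rfl)
  have h3 := hd j1 j2 h12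
  have hxj : ∀ j, hammingDist x (c j) ≤ diam (cols 4 H) := fun j => by
    by_cases e : j0 = j
    · rw [← e, hx]
      omega
    · have := hammingDist_triangle x (c j0) (c j)
      have := hd j0 j e
      have := hT j e
      omega
  intro hmax
  refine absurd (hmax x (fun i => ?_) fun hxA => ?_) (not_lt.2 ?_)
  · by_cases e : i = p
    · rcases hs j0 p with e' | e' <;> simp [x, e, e']
    · simpa [x, Function.update_of_ne e] using hs j0 i
  · obtain ⟨j, -, hj⟩ := mem_image.1 hxA
    have hj : c j = x := hj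
    rw [← hj] at hx
    by_cases e : j = j0
    · simp [e] at hx
    · have := hd j j0 e
      have := hlow j j0
      omega
  · refine Finset.sup_le fun u hu => Finset.sup_le fun v hv => ?_
    rcases mem_insert.1 hu with rfl | hu <;> rcases mem_insert.1 hv with rfl | hv
    · simp
    · obtain ⟨j, -, rfl⟩ := mem_image.1 hv
      exact hxj j
    · obtain ⟨j, -, rfl⟩ := mem_image.1 hu
      rw [hammingDist_comm]
      exact hxj j
    · exact le_sup_of_le hu (le_sup_of_le hv le_rfl)

def syl {k : ℕ} (x y : Fin k → Bool) : ℤ := ∏ l, if x l && y l then -1 else 1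

theorem syl_comm {k : ℕ} (x y : Fin k → Bool) : syl x y = syl y x := by
  simp only [syl, Bool.and_comm]

theorem syl_sign {k : ℕ} (x y : Fin k → Bool) : syl x y = 1 ∨ syl x y = -1 :=
  prod_induction _ (fun z : ℤ => z = 1 ∨ z = -1)
    (by rintro _ _ (rfl | rfl) (rfl | rfl) <;> simp) (Or.inl rfl) fun l _ => by
      split_ifs <;> simp

theorem syl_orth {k : ℕ} (x x' : Fin k → Bool) :
    ∑ y, syl x y * syl x' y = if x = x' then 2 ^ k else 0 := by
  simp only [syl, ← prod_mul_distrib]
  rw [← Fintype.piFinset_univ, ← prod_univ_sum (fun _ => univ) fun l b =>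
    ((if x l && b then -1 else 1) * if x' l && b then -1 else 1 : ℤ)]
  split_ifs with h
  · subst h
    rw [prod_congr rfl (g := fun _ => 2) fun l _ => by cases x l <;> simp]
    simp
  · obtain ⟨l, hl⟩ := Function.ne_iff.1 h
    refine prod_eq_zero (mem_univ l) ?_
    revert hl
    cases x l <;> cases x' l <;> simp

def blk (s : Bool) : Fin 4 → Fin 4 → ℤ :=
  if s then ![![1, 1, 1, 1], ![1, -1, 1, -1], ![1, 1, -1, -1], ![1, -1, -1, 1]]
  else ![![1, 1, 1, 1], ![1, -1, 1, -1], ![1, 1, -1, -1], ![-1, 1, 1, -1]]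

theorem blk_row : ∀ s a a', ∑ b, blk s a b * blk s a' b = if a = a' then 4 else 0 := by decide
theorem blk_col : ∀ s b b', ∑ a, blk s a b * blk s a b' = if b = b' then 4 else 0 := by decide

/-- For `r = 4` there are arbitrarily large normalized Hadamard matrices whose columns, after
deleting the first four rows, are not diametrically maximal. -/
theorem result (n₀ : ℕ) : ∃ m, n₀ ≤ 4 + m ∧ ∃ H : Matrix (Fin (4 + m)) (Fin (4 + m)) ℤ,
    NormHadamard H ∧ ¬ DiamMaximal (cols 4 H) := by
  obtain ⟨k, hk⟩ : ∃ k, n₀ + 3 < 2 ^ k := ⟨_, Nat.lt_two_pow_self⟩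
  obtain ⟨M, hM⟩ : ∃ M, 2 ^ k = M + 3 := ⟨2 ^ k - 3, by omega⟩
  let e0 : Fin (M + 3) ≃ (Fin k → Bool) := (Fintype.equivFinOfCardEq (by simp [hM])).symm
  let e := e0.trans (Equiv.swap (e0 0) fun _ => false)
  have he : e 0 = fun _ => false := by simp [e]
  have hn : 4 + (4 * M + 8) = (M + 3) * 4 := by ring
  let E : Fin (4 + (4 * M + 8)) ≃ Fin (M + 3) × Fin 4 := (finCongr hn).trans finProdFinEquiv.symm
  let F : Fin (M + 3) × Fin 4 → Fin (M + 3) × Fin 4 → ℤ := fun p q =>
    syl (e p.1) (e q.1) * blk (decide (q.1 = 0)) p.2 q.2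
  have hcast : ((4 + (4 * M + 8) : ℕ) : ℤ) = 2 ^ k * 4 := by
    rw [hn, ← hM]
    push_cast
    rfl
  have horth : ∀ x x', ∑ y, syl (e x) (e y) * syl (e x') (e y) = if x = x' then 2 ^ k else 0 :=
    fun x x' => by
      rw [e.sum_comp fun y => syl (e x) y * syl (e x') y, syl_orth]
      simp only [e.injective.eq_iff]
  have hs0 : ∀ y, syl (e 0) y = 1 := fun y => by simp [he, syl]
  have hE0 : ∀ i, i.val = 0 → E i = (0, 0) := fun i hi => by
    rw [← Equiv.eq_symm_apply]
    exact Fin.ext hi
  have hE : ∀ a : Fin 4, E (Fin.castAdd _ a) = (0, a) := fun a => by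
    rw [← Equiv.eq_symm_apply]
    exact Fin.ext (by simp [E])
  have hH : NormHadamard (Matrix.of fun i j => F (E i) (E j)) := by
    refine ⟨fun i j => ?_, ?_, ?_, fun i j hij => ?_⟩
    · rcases syl_sign (e (E i).1) (e (E j).1) with h | h <;>
        rcases (by decide : ∀ s a b, blk s a b = 1 ∨ blk s a b = -1) (decide ((E j).1 = 0))
          (E i).2 (E j).2 with h' | h' <;> simp [F, h, h']
    · ext i j
      simp only [mul_apply, transpose_apply, of_apply, Matrix.smul_apply, one_apply, smul_eq_mul]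
      rw [E.sum_comp fun q => F (E i) q * F (E j) q, Fintype.sum_prod_type,
        sum_congr rfl (g := fun y => syl (e (E i).1) (e y) * syl (e (E j).1) (e y) *
          if (E i).2 = (E j).2 then 4 else 0) fun y _ => by
          rw [← blk_row (decide (y = 0)), mul_sum]
          exact sum_congr rfl fun b _ => by simp only [F]; ring,
        ← sum_mul, horth, hcast]
      simp only [← E.injective.eq_iff (a := i), Prod.ext_iff]
      by_cases h1 : (E i).1 = (E j).1 <;> by_cases h2 : (E i).2 = (E j).2 <;> simp [h1, h2]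
    · ext i j
      simp only [mul_apply, transpose_apply, of_apply, Matrix.smul_apply, one_apply, smul_eq_mul]
      rw [E.sum_comp fun p => F p (E i) * F p (E j), Fintype.sum_prod_type,
        sum_congr rfl (g := fun x => syl (e (E i).1) (e x) * syl (e (E j).1) (e x) *
          ∑ a, blk (decide ((E i).1 = 0)) a (E i).2 * blk (decide ((E j).1 = 0)) a (E j).2)
          fun x _ => by
          rw [mul_sum, syl_comm (e (E i).1), syl_comm (e (E j).1)]
          exact sum_congr rfl fun b _ => by simp only [F]; ring,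
        ← sum_mul, horth, hcast]
      simp only [← E.injective.eq_iff (a := i), Prod.ext_iff]
      by_cases h1 : (E i).1 = (E j).1
      · rw [h1, blk_col]
        by_cases h2 : (E i).2 = (E j).2 <;> simp [h2]
      · simp [h1]
    · simp only [of_apply, F]
      rcases hij with h | h
      · rw [hE0 i h, hs0, one_mul]
        exact (by decide : ∀ s b, blk s 0 b = 1) _ _
      · rw [hE0 j h, syl_comm, hs0, one_mul]
        exact (by decide : ∀ a, blk true a 0 = 1) _
  refine ⟨4 * M + 8, by omega, _, hH, core (by omega) _ hH (E.symm (0, 0)) (E.symm (⟨1, by omega⟩, 0))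
    (E.symm (⟨2, by omega⟩, 0)) (E.symm.injective.ne (by simp [Fin.ext_iff])) (fun j hj => ?_) ?_⟩
  · simp only [of_apply, F, hE, Equiv.apply_symm_apply, hs0, one_mul, decide_true]
    refine (by decide : ∀ s b, (s = true → b ≠ 0) → ∑ a, blk true a 0 * blk s a b ≤ 2) _ _
      fun h1 h2 => hj ?_
    rw [Equiv.symm_apply_eq]
    exact Prod.ext (of_decide_eq_true h1).symm h2.symm
  · simp only [of_apply, F, hE, Equiv.apply_symm_apply, hs0, one_mul]
    rw [decide_eq_false (by simp [Fin.ext_iff]), decide_eq_false (by simp [Fin.ext_iff])]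
    decide

end Pool.Agent.Results.MP_1efffb_co.FourRows
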